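import Pool.Agent.H77.SQ.Crh
import Pool.Agent.H57.SL.Chv

/-!
# H77 SQ CHG: `chvg`, the ray class character of `θ` without the cube roots of unity (SQ, chapter LSb; MP_b39724_nt)

As `H57.SL.chv` for EVERY number field `K`: `crg` (file `Crh`) for `k = E`, `χ σ = θ (σ)`, the modulus `md (mB B) E`.
-/

set_option autoImplicit false

open scoped NumberField Pointwise Classical
open IsDedekindDomain H63.MA NumberField H36.QA H57.LI H57.LC H67.SX H38.ML H57.SL

noncomputable section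

namespace H77.SQ

variable {K : IntermediateField ℚ QBar} [NumberField K]

omit [NumberField K] in
private theorem chg_mem (E : IntermediateField K QBar)
    (σ : Gal(QBar/E)) : (σ.restrictScalars K : Gal(QBar/K)) ∈ E.fixingSubgroup := by
  rw [IntermediateField.mem_fixingSubgroup_iff]
  intro x hx
  exact σ.commutes ⟨x, hx⟩

/-- the character of the absolute Galois group of `E` -/
def chE (E : IntermediateField K QBar) (θ : Gal(QBar/K) → ZMod 3)
    (h : ∀ σ ∈ E.fixingSubgroup, ∀ τ ∈ E.fixingSubgroup, θ (σ * τ) = θ σ + θ τ) :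
    Gal(QBar/E) →* Multiplicative (ZMod 3) where
  toFun σ := Multiplicative.ofAdd (θ (σ.restrictScalars K))
  map_one' := by
    have h1 := h 1 (one_mem _) 1 (one_mem _)
    rw [mul_one] at h1
    have h2 : θ 1 = 0 := by
      have h3 : θ 1 + θ 1 = θ 1 + 0 := by rw [← h1, add_zero]
      exact add_left_cancel h3
    have h3 : ((1 : Gal(QBar/E)).restrictScalars K : Gal(QBar/K)) = 1 := rfl
    rw [h3, h2]
    rfl
  map_mul' σ τ := by
    have h1 : ((σ * τ).restrictScalars K : Gal(QBar/K)) = σ.restrictScalars K * τ.restrictScalars K := rfl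
    rw [h1, h _ (chg_mem E σ) _ (chg_mem E τ)]
    rfl

private theorem chg_ft
    (E : IntermediateField K QBar) [NumberField E] (θ : Gal(QBar/K) → ZMod 3)
    (h : ∀ σ ∈ E.fixingSubgroup, ∀ τ ∈ E.fixingSubgroup, θ (σ * τ) = θ σ + θ τ)
    (ft : ∃ M : IntermediateField K QBar, FiniteDimensional K M ∧
      ∀ σ ∈ M.fixingSubgroup, σ ∈ E.fixingSubgroup ∧ θ σ = 0) :
    H38.ML.FT (chE E θ h) := by
  obtain ⟨M, hM, hM'⟩ := ft
  have hE : FiniteDimensional K E := Module.Finite.of_restrictScalars_finite ℚ K E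
  have hs : FiniteDimensional K (E ⊔ M : IntermediateField K QBar) :=
    IntermediateField.finiteDimensional_sup E M
  have hle : E ≤ E ⊔ M := le_sup_left
  have hs' : FiniteDimensional K (IntermediateField.extendScalars hle) := hs
  refine ⟨IntermediateField.extendScalars hle, ?_, ?_⟩
  · exact Module.Finite.of_restrictScalars_finite K E (IntermediateField.extendScalars hle)
  · intro σ hσ
    rw [MonoidHom.mem_ker]
    have h1 : (σ.restrictScalars K : Gal(QBar/K)) ∈ M.fixingSubgroup := by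
      rw [IntermediateField.mem_fixingSubgroup_iff]
      intro x hx
      exact (IntermediateField.mem_fixingSubgroup_iff _ _).1 hσ x
        ((le_sup_right : M ≤ E ⊔ M) hx)
    show Multiplicative.ofAdd (θ (σ.restrictScalars K)) = 1
    rw [(hM' _ h1).2]
    rfl

theorem chE_sE (E : IntermediateField K QBar) (θ : Gal(QBar/K) → ZMod 3)
    (h : ∀ σ ∈ E.fixingSubgroup, ∀ τ ∈ E.fixingSubgroup, θ (σ * τ) = θ σ + θ τ)
    (σ : Gal(QBar/K)) (hσ : σ ∈ E.fixingSubgroup) :
    Multiplicative.toAdd (chE E θ h (sE E σ hσ)) = θ σ := by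
  have h1 : ((sE E σ hσ).restrictScalars K : Gal(QBar/K)) = σ := by
    ext x
    rfl
  show θ ((sE E σ hσ).restrictScalars K) = θ σ
  rw [h1]

theorem chvg (E : IntermediateField K QBar) [NumberField E]
    (θ : Gal(QBar/K) → ZMod 3) (B : Finset (Pl K)) (h : Th E θ B) :
    ∃ χ : RC E (md (mB B) E), Vl E θ B χ ∧
      ((∃ σ ∈ E.fixingSubgroup, θ σ ≠ 0) → χ.Non) := by
  have hcl : IsAlgClosure E QBar :=
    { isAlgClosed := inferInstance
      isAlgebraic := Algebra.IsAlgebraic.tower_top (K := K) E }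
  have h27 : Ideal.span {(27 : 𝓞 E)} ∣ md (mB B) E := by
    have e : md (mB B) E = Ideal.span {(27 : 𝓞 E)} * md (∏ v ∈ B, v.asIdeal) E := by
      unfold md mB
      rw [Ideal.map_mul, Ideal.map_span, Set.image_singleton, map_ofNat]
    rw [e]
    exact dvd_mul_right _ _
  -- a prime `u` which does not divide the modulus
  have hdv : ∀ (u : Pl E) (l : Pl K), Over u l → ¬ u.asIdeal ∣ md (mB B) E → ¬ Above 3 l ∧ l ∉ B := by
    intro u l hul hu
    constructor
    · intro h3
      apply hu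
      refine (dvd_md (mB B) u l hul).2 ?_
      refine dvd_trans ?_ (show Ideal.span {(27 : 𝓞 K)} ∣ mB B from dvd_mul_right _ _)
      rw [Ideal.dvd_span_singleton]
      have h1 : (27 : 𝓞 K) = ((3 : ℕ) : 𝓞 K) ^ 3 := by norm_num
      rw [h1]
      exact Ideal.pow_mem_of_mem _ h3 3 (by norm_num)
    · intro hB
      apply hu
      refine (dvd_md (mB B) u l hul).2 ?_
      exact (Finset.dvd_prod_of_mem _ hB).mul_left _
  have hnd : ∀ (u : Pl E) (l : Pl K), Over u l → ¬ Above 3 l → l ∉ B → ¬ u.asIdeal ∣ md (mB B) E := by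
    intro u l hul h3 hB hd
    have hd' := (dvd_md (mB B) u l hul).1 hd
    rcases (HeightOneSpectrum.prime l).dvd_or_dvd hd' with h1 | h1
    · have h2 : (27 : 𝓞 K) ∈ l.asIdeal := Ideal.dvd_span_singleton.1 h1
      have h27 : (27 : 𝓞 K) = ((3 : ℕ) : 𝓞 K) ^ 3 := by norm_num
      rw [h27] at h2
      exact h3 (l.isPrime.mem_of_pow_mem 3 h2)
    · obtain ⟨w, hwE, h2⟩ := (HeightOneSpectrum.prime l).exists_mem_finset_dvd h1
      have h3 : w.asIdeal ≤ l.asIdeal := Ideal.le_of_dvd h2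
      have h4 : w = l := HeightOneSpectrum.ext (w.isMaximal.eq_of_le l.isPrime.ne_top h3)
      exact hB (h4 ▸ hwE)
  obtain ⟨ψ, hψ, hN⟩ := crg (k := E) (Ω := QBar) (chE E θ h.mul) (chg_ft E θ h.mul h.ft) (md (mB B) E)
    (md_ne _ (mB_ne B)) h27 (by
      intro u hu P hP hPu σ hσ
      obtain ⟨l, hl⟩ := exists_below (K := K) u
      obtain ⟨h3, hB⟩ := hdv u l hl hu
      have hund : P.under (𝓞 K) = l.asIdeal := by
        rw [← (show u.asIdeal.comap (algebraMap (𝓞 K) (𝓞 E)) = l.asIdeal from hl), ← hPu]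
        ext x
        exact Iff.rfl
      have h1 := (h.unr l h3 hB P hP hund (σ.restrictScalars K) (fun x => hσ x)).2
      show Multiplicative.ofAdd (θ (σ.restrictScalars K)) = 1
      rw [h1]
      rfl)
  refine ⟨ψ, ?_, ?_⟩
  · intro Q l hl3 hlB hnp τ hτ
    have hIT : IT QBar E l := th_IT E θ B h l hl3 hlB
    have hfix : ac (fr Q l) (ac τ E.val) = ac τ E.val := by
      ext x
      have h2 := (IntermediateField.mem_fixingSubgroup_iff E _).1 hτ x.1 x.2
      have h4 : τ ((τ⁻¹ * fr Q l * τ) (x : QBar)) = τ (x : QBar) := congrArg τ h2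
      have h5 : τ ((τ⁻¹ * fr Q l * τ) (x : QBar)) = fr Q l (τ (x : QBar)) := by
        rw [← AlgEquiv.mul_apply, ← mul_assoc, ← mul_assoc, mul_inv_cancel, one_mul, AlgEquiv.mul_apply]
      rw [h5] at h4
      exact h4
    have hnm : nm (pe E Q l (ac τ E.val)) = nm l := (dic_fix E Q l hIT (ac τ E.val)).1 hfix
    have hov : Over (pe E Q l (ac τ E.val)) l := pe_over E Q l (ac τ E.val)
    obtain ⟨w, hw⟩ : ∃ w : Pl E, w = pe E Q l (ac τ E.val) := ⟨_, rfl⟩
    rw [← hw] at hnm hov ⊢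
    have hPp : (τ⁻¹ • Q.P l).IsPrime := by
      have := Q.prime l
      infer_instance
    have hPw : (τ⁻¹ • Q.P l).under (𝓞 E) = w.asIdeal := by
      rw [hw]
      ext x
      show algebraMap (𝓞 E) (𝓞 QBar) x ∈ τ⁻¹ • Q.P l ↔ _
      rw [Ideal.mem_inv_pointwise_smul_iff, mem_pe]
      exact Iff.rfl
    have hF : ∀ x : 𝓞 QBar, sE E (τ⁻¹ * fr Q l * τ) hτ • x - x ^ nm w ∈ τ⁻¹ • Q.P l := by
      intro x
      rw [Ideal.mem_inv_pointwise_smul_iff, smul_sub, hnm]
      have h5 := fr_spec Q l (τ • x)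
      have h6 : τ • (sE E (τ⁻¹ * fr Q l * τ) hτ • x) = fr Q l • (τ • x) := by
        have h7 : sE E (τ⁻¹ * fr Q l * τ) hτ • x = (τ⁻¹ * fr Q l * τ) • x := rfl
        rw [h7, mul_smul, mul_smul, smul_inv_smul]
      rw [h6, smul_pow']
      exact h5
    have hnp' : (nm w).Prime := by
      rw [hnm]
      exact hnp
    have hfin := hψ w (hnd w l hov hl3 hlB) hnp' (τ⁻¹ • Q.P l) hPp hPw
      (sE E (τ⁻¹ * fr Q l * τ) hτ) hF
    rw [chE_sE] at hfin
    exact hfin
  · rintro ⟨σ, hσ, hθ⟩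
    apply hN
    refine ⟨sE E σ hσ, fun h1 => hθ ?_⟩
    rw [← chE_sE E θ h.mul σ hσ, h1]
    rfl

end H77.SQ
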