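import Pool.Agent.H57.SL.Vfc
import Pool.Agent.H12.SQ.Defs

/-!
# H77 SQ VFI: LS5 with infinite places (SQ, chapter LSb; MP_b39724_nt)

`vfci`: `H57.SL.vfc` with `LEI` (local type with infinite places) for `LEq`.
-/

set_option autoImplicit false

open scoped NumberField Classical
open IsDedekindDomain H63.MA NumberField H36.QA H57.LI H57.LC H67.SX H38.ML Filter Topology H57.SL H12.SQ

noncomputable section

namespace H77.SQ

/-- the coefficient of a pair is a sum of products -/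
private theorem vfa_bbi {ι : Type} (μ : ι → ℝ) (x : Finset ι × Finset ι)
    (hx : Disjoint x.1 x.2) :
    bb μ x = (-1) ^ x.2.card * ∑ g ∈ x.2.powerset, pd μ (x.1 ∪ g) := by
  unfold bb
  have h1 : pd (fun i => -(1 + μ i)) x.2 = (-1) ^ x.2.card * ∑ g ∈ x.2.powerset, pd μ g := by
    unfold pd
    rw [← Finset.prod_one_add, ← Finset.prod_const, ← Finset.prod_mul_distrib]
    refine Finset.prod_congr rfl fun i _ => ?_
    ring
  rw [h1, mul_left_comm, Finset.mul_sum]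
  congr 1
  refine Finset.sum_congr rfl fun g hg => ?_
  unfold pd
  rw [Finset.prod_union (Finset.disjoint_of_subset_right (Finset.mem_powerset.1 hg) hx)]

private theorem vfa_nni {ι : Type} (p : Pr ι) {s t : Finset ι} (h : s ⊆ t) : p.nn s ≤ p.nn t := by
  unfold Pr.nn
  exact Finset.prod_le_prod_of_subset_of_one_le h (fun i _ => zero_le_one.trans (p.one_le i))
    (fun i _ _ => p.one_le i)

/-- the number of the squarefree products -/
private theorem vfa_cardi {ι : Type} (p : Pr ι) (V : ℝ) (hV : 1 ≤ V) :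
    ((p.SF V).card : ℝ) ≤ p.C * 2 ^ (p.n + 1) * V ^ (p.n + 1) := by
  have hC := p.C1
  have h1 := p.sfk_card 1 (V + 1) (by linarith)
  have h2 : ((p.SF V).card : ℝ) ≤ ((p.SF (V + 1)).card : ℝ) := by
    have h3 : p.SF V ⊆ p.SF (V + 1) := by
      intro s hs
      rw [p.mem_SF] at hs ⊢
      linarith
    exact_mod_cast Finset.card_le_card h3
  have h3 : ∑ s ∈ p.SF (V + 1), ((1 : ℕ) : ℝ) ^ s.card = ((p.SF (V + 1)).card : ℝ) := by
    simp
  rw [h3, pow_one] at h1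
  have h4 : Real.log (V + 1) ≤ V + 1 := by
    have := Real.log_le_sub_one_of_pos (show (0 : ℝ) < V + 1 by linarith)
    linarith
  have h5 : 0 ≤ Real.log (V + 1) := Real.log_nonneg (by linarith)
  have h6 : V + 1 ≤ 2 * V := by linarith
  calc ((p.SF V).card : ℝ) ≤ (V + 1) * (p.C * Real.log (V + 1) ^ p.n) := h2.trans h1
    _ ≤ (2 * V) * (p.C * (2 * V) ^ p.n) := by gcongr; linarith
    _ = p.C * 2 ^ (p.n + 1) * V ^ (p.n + 1) := by ring

theorem vfai {K : IntermediateField ℚ QBar} [NumberField K] (S : Finset (Pl K))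
    (Q : DP K QBar) (c₀ : Cu K) (κ : ℝ) (m : Pl K → ℝ) (C : ℝ) (A : ℕ) (δ : ℝ) (hC : 1 ≤ C)
    (hfin : ∀ R : ℝ, {c : Cu K | LEI S Q c₀ c ∧ c.D ≤ R}.Finite)
    (h : ∀ q : Finset (Pl K), (∀ l ∈ q, l ∉ S) → ∀ R : ℝ, 1 ≤ R →
      |(∑ᶠ c ∈ {c : Cu K | LEI S Q c₀ c ∧ c.D ≤ R}, ∏ l ∈ q, c.mu l) -
        κ * R * ∏ l ∈ q, m l| ≤ C * nr q ^ A * R ^ (1 - δ)) :
    ∃ (C' : ℝ) (A' : ℕ), 1 ≤ C' ∧ ∀ V R : ℝ, 1 ≤ V → 1 ≤ R →
      |(∑ᶠ c ∈ {c : Cu K | LEI S Q c₀ c ∧ c.D ≤ R}, AV (prK K) S c.mu V) -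
        κ * R * AV (prK K) S m V| ≤ C' * V ^ A' * R ^ (1 - δ) := by
  have hpC := (prK K).C1
  obtain ⟨p, hp⟩ : ∃ p : Pr (Pl K), p = prK K := ⟨_, rfl⟩
  rw [← hp] at hpC
  have hnr : ∀ s : Finset (Pl K), p.nn s = nr s := by
    intro s
    rw [hp]
    unfold Pr.nn nr
    refine Finset.prod_congr rfl fun l _ => ?_
    rw [prK_N]
  refine ⟨C * (p.C * 2 ^ (p.n + 1)) ^ 2, A + 1 + 2 * (p.n + 1), ?_, ?_⟩
  · refine one_le_mul_of_one_le_of_one_le hC (one_le_pow₀ ?_)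
    exact one_le_mul_of_one_le_of_one_le hpC (one_le_pow₀ one_le_two)
  intro V R hV hR
  rw [← hp]
  have hV0 : 0 < V := by linarith
  have hR0 : 0 < R := by linarith
  -- finite sums
  rw [finsum_mem_eq_finite_toFinset_sum _ (hfin R)]
  obtain ⟨Fs, hFs⟩ : ∃ Fs : Finset (Cu K), Fs = (hfin R).toFinset := ⟨_, rfl⟩
  rw [← hFs]
  have hq : ∀ q : Finset (Pl K), (∀ l ∈ q, l ∉ S) →
      |∑ c ∈ Fs, pd c.mu q - κ * R * pd m q| ≤ C * nr q ^ A * R ^ (1 - δ) := by
    intro q hq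
    have h1 := h q hq R hR
    rw [finsum_mem_eq_finite_toFinset_sum _ (hfin R), ← hFs] at h1
    exact h1
  have e1 : ∑ c ∈ Fs, AV p S c.mu V - κ * R * AV p S m V =
      ∑ x ∈ XP p S V, (∑ c ∈ Fs, bb c.mu x - κ * R * bb m x) / nx p x := by
    unfold AV
    rw [Finset.sum_comm, Finset.mul_sum, ← Finset.sum_sub_distrib]
    refine Finset.sum_congr rfl fun x _ => ?_
    rw [← Finset.sum_div, sub_div, mul_div_assoc]
  have e2 : ∀ x ∈ XP p S V, |(∑ c ∈ Fs, bb c.mu x - κ * R * bb m x) / nx p x| ≤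
      V * (C * V ^ A * R ^ (1 - δ)) := by
    intro x hx
    unfold XP at hx
    rw [Finset.mem_filter] at hx
    obtain ⟨-, hd, hd1, hd2, hxV⟩ := hx
    have hn1 := p.one_le_nn x.1
    have hn2 := p.one_le_nn x.2
    have hnx1 : 1 ≤ nx p x := by
      unfold nx
      exact one_le_mul_of_one_le_of_one_le hn1 (one_le_pow₀ hn2)
    have h12 : p.nn x.1 * p.nn x.2 ≤ V := by
      refine le_trans ?_ hxV
      unfold nx
      have h3 : p.nn x.2 ≤ p.nn x.2 ^ 2 := by nlinarith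
      exact mul_le_mul_of_nonneg_left h3 (by linarith)
    have h2 : p.nn x.2 ≤ V := by nlinarith
    rw [abs_div, abs_of_pos (show 0 < nx p x by linarith)]
    refine (div_le_self (abs_nonneg _) hnx1).trans ?_
    have e3 : ∑ c ∈ Fs, bb c.mu x - κ * R * bb m x = (-1) ^ x.2.card *
        ∑ g ∈ x.2.powerset, (∑ c ∈ Fs, pd c.mu (x.1 ∪ g) - κ * R * pd m (x.1 ∪ g)) := by
      rw [vfa_bbi m x hd]
      have h3 : ∑ c ∈ Fs, bb c.mu x = (-1) ^ x.2.card * ∑ g ∈ x.2.powerset,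
          ∑ c ∈ Fs, pd c.mu (x.1 ∪ g) := by
        rw [Finset.sum_comm, Finset.mul_sum]
        exact Finset.sum_congr rfl fun c _ => vfa_bbi c.mu x hd
      rw [h3, Finset.sum_sub_distrib, mul_sub, ← Finset.mul_sum]
      ring
    rw [e3, abs_mul, abs_pow, abs_neg, abs_one, one_pow, one_mul]
    refine (Finset.abs_sum_le_sum_abs _ _).trans ?_
    have e4 : ∀ g ∈ x.2.powerset, |∑ c ∈ Fs, pd c.mu (x.1 ∪ g) - κ * R * pd m (x.1 ∪ g)| ≤
        C * V ^ A * R ^ (1 - δ) := by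
      intro g hg
      have hg' := Finset.mem_powerset.1 hg
      refine (hq _ ?_).trans ?_
      · intro l hl hlS
        rw [Finset.mem_union] at hl
        rcases hl with hl | hl
        · exact Finset.disjoint_left.1 hd1 hl hlS
        · exact Finset.disjoint_left.1 hd2 (hg' hl) hlS
      · have h3 : nr (x.1 ∪ g) ≤ V := by
          rw [← hnr]
          have h4 : p.nn (x.1 ∪ g) = p.nn x.1 * p.nn g := by
            unfold Pr.nn
            exact Finset.prod_union (Finset.disjoint_of_subset_right hg' hd)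
          have h5 : p.nn g ≤ p.nn x.2 := vfa_nni p hg'
          rw [h4]
          exact (mul_le_mul_of_nonneg_left h5 (by linarith)).trans h12
        have h4 : 0 ≤ nr (x.1 ∪ g) := by
          rw [← hnr]
          exact (p.nn_pos _).le
        gcongr
    refine (Finset.sum_le_sum e4).trans ?_
    rw [Finset.sum_const, Finset.card_powerset, nsmul_eq_mul]
    have h3 : (((2 ^ x.2.card : ℕ)) : ℝ) ≤ V := by
      refine le_trans ?_ h2
      push_cast
      rw [← Finset.prod_const]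
      unfold Pr.nn
      exact Finset.prod_le_prod (fun _ _ => by norm_num) fun i _ => p.two_le i
    exact mul_le_mul_of_nonneg_right h3 (by positivity)
  rw [e1]
  refine (Finset.abs_sum_le_sum_abs _ _).trans ((Finset.sum_le_sum e2).trans ?_)
  rw [Finset.sum_const, nsmul_eq_mul]
  have e5 : ((XP p S V).card : ℝ) ≤ (p.C * 2 ^ (p.n + 1) * V ^ (p.n + 1)) ^ 2 := by
    have h1 : (XP p S V).card ≤ (p.SF V).card * (p.SF V).card := by
      unfold XP
      exact (Finset.card_filter_le _ _).trans (Finset.card_product _ _).le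
    have h2 := vfa_cardi p V hV
    calc ((XP p S V).card : ℝ) ≤ ((p.SF V).card : ℝ) * ((p.SF V).card : ℝ) := by exact_mod_cast h1
      _ = ((p.SF V).card : ℝ) ^ 2 := by ring
      _ ≤ (p.C * 2 ^ (p.n + 1) * V ^ (p.n + 1)) ^ 2 := by gcongr
  calc ((XP p S V).card : ℝ) * (V * (C * V ^ A * R ^ (1 - δ)))
      ≤ (p.C * 2 ^ (p.n + 1) * V ^ (p.n + 1)) ^ 2 * (V * (C * V ^ A * R ^ (1 - δ))) :=
        mul_le_mul_of_nonneg_right e5 (by positivity)
    _ = C * (p.C * 2 ^ (p.n + 1)) ^ 2 * V ^ (A + 1 + 2 * (p.n + 1)) * R ^ (1 - δ) := by ring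

private theorem vfci_log (n : ℕ) :
    Tendsto (fun R : ℝ => (1 + Real.log R) ^ n / R ^ (1 / 2 : ℝ)) atTop (𝓝 0) := by
  have h1 := (isLittleO_log_rpow_rpow_atTop (n : ℝ) (show (0 : ℝ) < 1 / 2 by norm_num)).tendsto_div_nhds_zero
  have h2 : Tendsto (fun R : ℝ => (2 : ℝ) ^ n * (Real.log R ^ (n : ℝ) / R ^ (1 / 2 : ℝ))) atTop (𝓝 0) := by
    simpa using h1.const_mul ((2 : ℝ) ^ n)
  refine squeeze_zero' ?_ ?_ h2
  · filter_upwards [eventually_ge_atTop 1] with R hR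
    have := Real.log_nonneg hR
    positivity
  · filter_upwards [eventually_ge_atTop (Real.exp 1)] with R hR
    have hR0 : 0 < R := (Real.exp_pos 1).trans_le hR
    have h3 : 1 ≤ Real.log R := (Real.le_log_iff_exp_le hR0).2 hR
    rw [Real.rpow_natCast, ← mul_div_assoc, ← mul_pow]
    refine div_le_div_of_nonneg_right ?_ (by positivity)
    exact pow_le_pow_left₀ (by linarith) (by linarith) n

private theorem vfci_av {K : IntermediateField ℚ QBar} [NumberField K] (S : Finset (Pl K)) (μ : Pl K → ℝ) (V B : ℝ)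
    (h : ∑ x ∈ XP (prK K) S V, |bb μ x| / nx (prK K) x ≤ B) : |AV (prK K) S μ V| ≤ B := by
  refine le_trans ?_ h
  unfold AV
  refine (Finset.abs_sum_le_sum_abs _ _).trans (le_of_eq (Finset.sum_congr rfl fun x _ => ?_))
  rw [abs_div]
  congr 1
  apply abs_of_pos
  unfold nx
  have h1 := (prK K).nn_pos x.1
  have h2 := (prK K).nn_pos x.2
  positivity

theorem vfci (K : IntermediateField ℚ QBar) [NumberField K] (S : Finset (Pl K))
    (Q : DP K QBar) (Am : Cu K → ℝ) (h3 : LS3 K S Am) (hA : APX K S Am)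
    (hM : MStI K S Q) : LS5I K S Q Am := by
  obtain ⟨C₃, A₃, δ₃, hC₃, -, -, hAm⟩ := h3
  obtain ⟨C₄, k₄, hC₄, hxab⟩ := xab (prK K)
  have hk := (kS_spec K S).1
  obtain ⟨k, hkd⟩ : ∃ k, k = kS S := ⟨_, rfl⟩
  rw [← hkd] at hk
  intro c₀
  obtain ⟨κ, m, C, A, δ, hκ, hC, hδ, hδ1, hm, hm1, hM⟩ := hM c₀
  obtain ⟨a₀, ha₀, hlim⟩ := vfb K S m C hm hm1
  have hfin : ∀ R : ℝ, {c : Cu K | LEI S Q c₀ c ∧ c.D ≤ R}.Finite := fun R =>
    (cu_fin K R).subset (fun c hc => hc.2)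
  obtain ⟨C', A', hC', hvfa⟩ := vfai S Q c₀ κ m C A δ hC hfin hM
  obtain ⟨η, hη⟩ : ∃ η, η = min 1 (δ / (2 * ((A' : ℝ) + 1))) := ⟨_, rfl⟩
  have hη0 : 0 < η := by
    rw [hη]
    exact lt_min one_pos (by positivity)
  have hη1 : η ≤ 1 := by
    rw [hη]
    exact min_le_left _ _
  have hηA : η * A' ≤ δ / 2 := by
    have h1 : η ≤ δ / (2 * ((A' : ℝ) + 1)) := by
      rw [hη]
      exact min_le_right _ _
    rw [le_div_iff₀ (by positivity)] at h1
    linarith
  obtain ⟨R₀, hR₀, hapx⟩ := hA η hη0 hη1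
  rw [← hkd] at hapx
  have hC0 : 0 < C := by linarith
  have hC₃0 : 0 < C₃ := by linarith
  have hC₄0 : 0 < C₄ := by linarith
  have hC'0 : 0 < C' := by linarith
  refine ⟨κ * k * a₀, by positivity, ?_⟩
  obtain ⟨F, hF⟩ : ∃ F : ℝ → ℝ, ∀ R, F R = (κ + C) * (Real.log R)⁻¹ +
      (C₃ * ((1 + Real.log R) ^ 3 / R ^ (1 / 2 : ℝ)) + k * C₄ * ((1 + Real.log R) ^ k₄ / R ^ (1 / 2 : ℝ))) +
      k * C' * R ^ (-(δ / 2)) + κ * k * |AV (prK K) S m (R ^ η) - a₀| := ⟨fun R => _, fun R => rfl⟩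
  have hF0 : Tendsto F atTop (𝓝 0) := by
    have e : F = fun R => (κ + C) * (Real.log R)⁻¹ +
      (C₃ * ((1 + Real.log R) ^ 3 / R ^ (1 / 2 : ℝ)) + k * C₄ * ((1 + Real.log R) ^ k₄ / R ^ (1 / 2 : ℝ))) +
      k * C' * R ^ (-(δ / 2)) + κ * k * |AV (prK K) S m (R ^ η) - a₀| := funext hF
    rw [e]
    have t1 : Tendsto (fun R : ℝ => (κ + C) * (Real.log R)⁻¹) atTop (𝓝 0) := by
      simpa using (tendsto_inv_atTop_zero.comp Real.tendsto_log_atTop).const_mul (κ + C)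
    have t2 : Tendsto (fun R : ℝ => C₃ * ((1 + Real.log R) ^ 3 / R ^ (1 / 2 : ℝ))) atTop (𝓝 0) := by
      simpa using (vfci_log 3).const_mul C₃
    have t3 : Tendsto (fun R : ℝ => k * C₄ * ((1 + Real.log R) ^ k₄ / R ^ (1 / 2 : ℝ))) atTop (𝓝 0) := by
      simpa using (vfci_log k₄).const_mul (k * C₄)
    have t4 : Tendsto (fun R : ℝ => k * C' * R ^ (-(δ / 2))) atTop (𝓝 0) := by
      simpa using (tendsto_rpow_neg_atTop (show 0 < δ / 2 by positivity)).const_mul (k * C')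
    have t5 : Tendsto (fun R : ℝ => κ * k * |AV (prK K) S m (R ^ η) - a₀|) atTop (𝓝 0) := by
      have h1 : Tendsto (fun R : ℝ => AV (prK K) S m (R ^ η)) atTop (𝓝 a₀) :=
        hlim.comp (tendsto_rpow_atTop hη0)
      have h2 := (h1.sub_const a₀).abs.const_mul (κ * k)
      simpa using h2
    simpa using ((t1.add (t2.add t3)).add t4).add t5
  rw [tendsto_iff_norm_sub_tendsto_zero]
  refine squeeze_zero' (Eventually.of_forall fun _ => norm_nonneg _) ?_ hF0
  filter_upwards [eventually_ge_atTop R₀] with R hR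
  have hR3 : 3 ≤ R := hR₀.trans hR
  have hR1 : 1 ≤ R := by linarith
  have hR0 : 0 < R := by linarith
  have hlog0 : 0 < Real.log R := Real.log_pos (by linarith)
  rw [Real.norm_eq_abs]
  obtain ⟨T, hT⟩ : ∃ T, T = (hfin R).toFinset := ⟨_, rfl⟩
  have hTm : ∀ c ∈ T, LEI S Q c₀ c ∧ c.D ≤ R := fun c hc => by
    rw [hT, Set.Finite.mem_toFinset] at hc
    exact hc
  obtain ⟨V, hV⟩ : ∃ V, V = R ^ η := ⟨_, rfl⟩
  have hV1 : 1 ≤ V := by
    rw [hV]
    exact Real.one_le_rpow hR1 hη0.le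
  have hlV : Real.log V ≤ Real.log R := by
    rw [hV, Real.log_rpow hR0]
    have := mul_le_mul_of_nonneg_right hη1 hlog0.le
    linarith
  have hcard : (T.card : ℝ) ≤ (κ + C) * R := by
    have h1 := hM ∅ (by simp) R hR1
    rw [finsum_mem_eq_finite_toFinset_sum _ (hfin R), ← hT] at h1
    simp only [Finset.prod_empty, Finset.sum_const, nsmul_eq_mul, mul_one, nr, one_pow] at h1
    have h2 : R ^ (1 - δ) ≤ R := by
      have := Real.rpow_le_rpow_of_exponent_le hR1 (show 1 - δ ≤ 1 by linarith)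
      rwa [Real.rpow_one] at this
    have h3 := (abs_le.1 h1).2
    have h4 : C * R ^ (1 - δ) ≤ C * R := mul_le_mul_of_nonneg_left h2 hC0.le
    linarith
  have hAV : ∀ c : Cu K, |AV (prK K) S c.mu V| ≤ C₄ * (1 + Real.log R) ^ k₄ := by
    intro c
    refine vfci_av S c.mu V _ ((hxab c.mu (fun l => (cbl_mu c l).1) S V hV1).trans ?_)
    refine mul_le_mul_of_nonneg_left (pow_le_pow_left₀ ?_ (by linarith) _) hC₄0.le
    have := Real.log_nonneg hV1
    linarith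
  have hAmb : ∀ c ∈ T, |Am c| ≤ C₃ * (1 + Real.log R) ^ 3 := by
    intro c hc
    obtain ⟨h1, h2, -⟩ := hAm c
    rw [abs_of_nonneg h1]
    refine h2.trans (mul_le_mul_of_nonneg_left (pow_le_pow_left₀ ?_ ?_ _) hC₃0.le)
    · have := Real.log_nonneg (one_le_D c)
      linarith
    · have := Real.log_le_log (lt_of_lt_of_le one_pos (one_le_D c)) (hTm c hc).2
      linarith
  obtain ⟨B, hB⟩ : ∃ B, B = C₃ * (1 + Real.log R) ^ 3 + k * (C₄ * (1 + Real.log R) ^ k₄) := ⟨_, rfl⟩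
  have hB0 : 0 ≤ B := by
    rw [hB]
    positivity
  obtain ⟨hXf, hXc⟩ := hapx R hR
  rw [← hV] at hXf hXc
  obtain ⟨X, hX⟩ : ∃ X, X = {c : Cu K | c.D ≤ R ∧ 1 / Real.log R < |k * AV (prK K) S c.mu V - Am c|} := ⟨_, rfl⟩
  rw [← hX] at hXf hXc
  have hone : ∀ c ∈ T, |Am c - k * AV (prK K) S c.mu V| ≤ 1 / Real.log R + if c ∈ X then B else 0 := by
    intro c hc
    by_cases hcX : c ∈ X
    · rw [if_pos hcX]
      have h1 := abs_sub (Am c) (k * AV (prK K) S c.mu V)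
      rw [abs_mul, abs_of_pos hk] at h1
      have h2 := hAmb c hc
      have h3 := mul_le_mul_of_nonneg_left (hAV c) hk.le
      have h4 : 0 ≤ 1 / Real.log R := by positivity
      rw [hB]
      linarith
    · rw [if_neg hcX, add_zero]
      by_contra hcon
      push Not at hcon
      apply hcX
      rw [hX]
      refine ⟨(hTm c hc).2, ?_⟩
      rw [abs_sub_comm]
      exact hcon
  have hs1 : |∑ c ∈ T, Am c - k * ∑ c ∈ T, AV (prK K) S c.mu V| ≤
      (κ + C) * R * (1 / Real.log R) + R ^ (1 / 2 : ℝ) * B := by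
    rw [Finset.mul_sum, ← Finset.sum_sub_distrib]
    refine (Finset.abs_sum_le_sum_abs _ _).trans ((Finset.sum_le_sum hone).trans ?_)
    rw [Finset.sum_add_distrib, Finset.sum_const, nsmul_eq_mul, ← Finset.sum_filter, Finset.sum_const,
      nsmul_eq_mul]
    refine add_le_add (mul_le_mul_of_nonneg_right hcard (by positivity)) (mul_le_mul_of_nonneg_right ?_ hB0)
    refine le_trans ?_ hXc
    have h1 : ((T.filter fun c => c ∈ X).card : ℝ) ≤ (X.ncard : ℝ) := by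
      have h2 := Set.ncard_le_ncard (s := ((T.filter fun c => c ∈ X : Finset (Cu K)) : Set (Cu K))) (t := X)
        (fun c hc => (Finset.mem_filter.1 (Finset.mem_coe.1 hc)).2) hXf
      rw [Set.ncard_coe_finset] at h2
      exact_mod_cast h2
    exact h1
  have hs2 : |∑ c ∈ T, AV (prK K) S c.mu V - κ * R * AV (prK K) S m V| ≤ C' * (R * R ^ (-(δ / 2))) := by
    have h1 := hvfa V R hV1 hR1
    rw [finsum_mem_eq_finite_toFinset_sum _ (hfin R), ← hT] at h1
    refine h1.trans ?_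
    rw [mul_assoc]
    refine mul_le_mul_of_nonneg_left ?_ hC'0.le
    have h2 : V ^ A' = R ^ (η * A') := by
      rw [hV, Real.rpow_mul hR0.le, Real.rpow_natCast]
    have h3 : R * R ^ (-(δ / 2)) = R ^ (1 + -(δ / 2)) := by
      rw [Real.rpow_add hR0, Real.rpow_one]
    rw [h2, h3, ← Real.rpow_add hR0]
    exact Real.rpow_le_rpow_of_exponent_le hR1 (by linarith)
  have hs3 : |κ * R * AV (prK K) S m V - κ * R * a₀| = κ * R * |AV (prK K) S m V - a₀| := by
    rw [← mul_sub, abs_mul, abs_of_pos (by positivity)]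
  have hfs : (∑ᶠ c ∈ {c : Cu K | LEI S Q c₀ c ∧ c.D ≤ R}, Am c) = ∑ c ∈ T, Am c := by
    rw [finsum_mem_eq_finite_toFinset_sum _ (hfin R), ← hT]
  show |(∑ᶠ c ∈ {c : Cu K | LEI S Q c₀ c ∧ c.D ≤ R}, Am c) / R - κ * k * a₀| ≤ F R
  rw [hfs]
  have hmain : |∑ c ∈ T, Am c - κ * k * a₀ * R| ≤ F R * R := by
    have e1 : ∑ c ∈ T, Am c - κ * k * a₀ * R = (∑ c ∈ T, Am c - k * ∑ c ∈ T, AV (prK K) S c.mu V) +
        k * ((∑ c ∈ T, AV (prK K) S c.mu V - κ * R * AV (prK K) S m V) +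
          (κ * R * AV (prK K) S m V - κ * R * a₀)) := by ring
    have h1 : |∑ c ∈ T, Am c - κ * k * a₀ * R| ≤ ((κ + C) * R * (1 / Real.log R) + R ^ (1 / 2 : ℝ) * B) +
        k * (C' * (R * R ^ (-(δ / 2))) + κ * R * |AV (prK K) S m V - a₀|) := by
      rw [e1]
      refine (abs_add_le _ _).trans (add_le_add hs1 ?_)
      rw [abs_mul, abs_of_pos hk]
      refine mul_le_mul_of_nonneg_left ?_ hk.le
      refine (abs_add_le _ _).trans (add_le_add hs2 ?_)
      rw [hs3]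
    refine h1.trans (le_of_eq ?_)
    have h2 : R ^ (1 / 2 : ℝ) * R ^ (1 / 2 : ℝ) = R := by
      rw [← Real.rpow_add hR0]
      norm_num
    have h3 : 0 < R ^ (1 / 2 : ℝ) := by positivity
    have h4 : ∀ y : ℝ, y / R ^ (1 / 2 : ℝ) * R = y * R ^ (1 / 2 : ℝ) := by
      intro y
      rw [div_mul_eq_mul_div, div_eq_iff h3.ne', mul_assoc, h2]
    have e2 := h4 ((1 + Real.log R) ^ 3)
    have e3 := h4 ((1 + Real.log R) ^ k₄)
    rw [hF, hB, hV, one_div (Real.log R)]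
    linear_combination (-C₃) * e2 + (-(k * C₄)) * e3
  have h5 : (∑ c ∈ T, Am c) / R - κ * k * a₀ = (∑ c ∈ T, Am c - κ * k * a₀ * R) / R := by
    field_simp
  rw [h5, abs_div, abs_of_pos hR0, div_le_iff₀ hR0]
  exact hmain

end H77.SQ
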