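import Pool.Agent.H57.SL.Vfo
import Pool.Agent.H57.SL.Mux
import Pool.Agent.H77.SQ.Vfi
import Pool.Agent.H77.SQ.Pcg

/-!
# H77 SQ LSG: `lsxg`, the main term of the fibres over every number field: LS3, LS4, LS5I (SQ, chapter LSb; MP_b39724_nt)
-/

set_option autoImplicit false

open scoped NumberField Classical
open IsDedekindDomain H63.MA NumberField H36.QA H57.LI H57.LC H67.SX H38.ML H57.SL H12.SQ

noncomputable section

namespace H77.SQ

theorem lsxg (K : IntermediateField ℚ QBar) [NumberField K] (S : Finset (Pl K))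
    (h3 : ∀ v : Pl K, Above 3 v → v ∈ S) :
    ∃ Am : Cu K → ℝ, LS3 K S Am ∧ LS4 K S Am ∧
      ∀ Q : DP K QBar, MStI K S Q → LS5I K S Q Am := by
  have hp1 := pc1g S h3
  have hp2 := pc2g S h3
  obtain ⟨Am, hA3, hA4, hA⟩ := vfo K S hp1 (mux S hp1 hp2)
  exact ⟨Am, hA3, hA4, fun Q hM => vfci K S Q Am hA3 hA hM⟩

end H77.SQ
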