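import Pool.Agent.H48.CR.Cr

/-!
# H77 SQ CRG: the cubic ray class character of a number field `k` (with or without the cube roots of unity), general form (SQ, chapter LSb; MP_b39724_nt)

`k` any number field, `Ω` an algebraic closure, `χ : Gal(Ω/k) →* ZMod 3` of finite type, `𝔪` a modulus divisible by `27`, `χ` unramified at the primes
which do not divide `𝔪`. `crg`: there is a ray class character `ψ` modulo `𝔪` with `ψ(u) = ep 3 (χ φ)` for the primes `u ∤ 𝔪` of prime norm and every Frobenius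
element `φ` over `u`; it is nontrivial if `χ` is. Proof: `M = k(ω)`, `[M : k] ≤ 2`; as H48/CR (`chi_ex` over `M`, `rc_pow`), `ψ I = (ψ_M (I 𝓞_M)) ^ a`, `a [M : k] = 1` modulo 3.
-/

set_option autoImplicit false

open scoped NumberField Pointwise Classical
open IsDedekindDomain H63.MA H38.ML

noncomputable section

namespace H77.SQ

section tower

variable {k M : Type} [Field k] [NumberField k] [Field M] [NumberField M] [Algebra k M]

private theorem cr_desc (A B : Ideal (𝓞 k)) (h : IsCoprime (H57.LI.md A M) (H57.LI.md B M)) :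
    IsCoprime A B := by
  by_contra hc
  rw [Ideal.isCoprime_iff_sup_eq] at hc
  obtain ⟨p, hp, hle⟩ := Ideal.exists_le_maximal _ hc
  obtain ⟨P, hP1, hP2⟩ := Ideal.exists_maximal_ideal_liesOver_of_isIntegral (S := 𝓞 M) p
  have h1 : ∀ C : Ideal (𝓞 k), C ≤ p → H57.LI.md C M ≤ P := by
    intro C hC
    unfold H57.LI.md
    rw [Ideal.map_le_iff_le_comap]
    exact hC.trans (le_of_eq (Ideal.LiesOver.over (P := P) (p := p)))
  rw [Ideal.isCoprime_iff_sup_eq] at h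
  have h2 : H57.LI.md A M ⊔ H57.LI.md B M ≤ P :=
    sup_le (h1 A (le_sup_left.trans hle)) (h1 B (le_sup_right.trans hle))
  rw [h, top_le_iff] at h2
  exact hP1.ne_top h2

private theorem cr_asc (A B : Ideal (𝓞 k)) (h : IsCoprime A B) :
    IsCoprime (H57.LI.md A M) (H57.LI.md B M) := by
  unfold H57.LI.md
  rw [Ideal.isCoprime_iff_sup_eq] at h ⊢
  rw [← Ideal.map_sup, h, Ideal.map_top]

theorem md_ne (A : Ideal (𝓞 k)) (h : A ≠ ⊥) : H57.LI.md A M ≠ ⊥ := by
  unfold H57.LI.md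
  rw [Ne, Ideal.map_eq_bot_iff_of_injective (FaithfulSMul.algebraMap_injective (𝓞 k) (𝓞 M))]
  exact h

/-- a power of the restriction of a ray class character of `M` to the ideals of `k` -/
def dnp (a : ℕ) (ha : a ≠ 0) {𝔪 : Ideal (𝓞 k)} (χ : RC M (H57.LI.md 𝔪 M)) : RC k 𝔪 where
  χ :=
    { toFun := fun I => χ.χ (H57.LI.md I M) ^ a
      map_zero' := by
        have h : H57.LI.md (0 : Ideal (𝓞 k)) M = 0 := Ideal.map_bot
        rw [h, map_zero, zero_pow ha]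
      map_one' := by
        have h : H57.LI.md (1 : Ideal (𝓞 k)) M = 1 := by
          unfold H57.LI.md
          rw [Ideal.one_eq_top, Ideal.map_top, Ideal.one_eq_top]
        rw [h, map_one, one_pow]
      map_mul' := fun I J => by
        have h : H57.LI.md (I * J) M = H57.LI.md I M * H57.LI.md J M := Ideal.map_mul _ I J
        rw [h, map_mul, mul_pow] }
  norm_one I hI hc := by
    show ‖χ.χ (H57.LI.md I M) ^ a‖ = 1
    rw [norm_pow, χ.norm_one _ (md_ne I hI) (cr_asc I 𝔪 hc), one_pow]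
  zero_of I hc := by
    show χ.χ (H57.LI.md I M) ^ a = 0
    rw [χ.zero_of _ fun h => hc (cr_desc I 𝔪 h), zero_pow ha]
  ray x hx h1 := by
    show χ.χ (H57.LI.md (Ideal.span {x}) M) ^ a = 1
    have h2 : H57.LI.md (Ideal.span {x}) M = Ideal.span {algebraMap (𝓞 k) (𝓞 M) x} := by
      unfold H57.LI.md
      rw [Ideal.map_span, Set.image_singleton]
    rw [h2, χ.ray, one_pow]
    · rw [Ne, map_eq_zero_iff _ (FaithfulSMul.algebraMap_injective (𝓞 k) (𝓞 M))]
      exact hx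
    · have h3 := Ideal.mem_map_of_mem (algebraMap (𝓞 k) (𝓞 M)) h1
      rw [map_sub, map_one] at h3
      exact h3

theorem dnp_apply (a : ℕ) (ha : a ≠ 0) {𝔪 : Ideal (𝓞 k)} (χ : RC M (H57.LI.md 𝔪 M)) (I : Ideal (𝓞 k)) :
    (dnp a ha χ).χ I = χ.χ (H57.LI.md I M) ^ a := rfl

theorem above_up (w : Pl M) (u : Pl k) (hw : Over w u) (h : Above 3 w) : Above 3 u := by
  unfold Above at h ⊢
  rw [← (show w.asIdeal.comap (algebraMap (𝓞 k) (𝓞 M)) = u.asIdeal from hw), Ideal.mem_comap,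
    map_natCast]
  exact h

theorem dvd_md (J : Ideal (𝓞 k)) (w : Pl M) (u : Pl k) (hw : Over w u) :
    w.asIdeal ∣ H57.LI.md J M ↔ u.asIdeal ∣ J := by
  constructor
  · intro h
    have h1 : H57.LI.md J M ≤ w.asIdeal := Ideal.le_of_dvd h
    have h2 : J ≤ w.asIdeal.comap (algebraMap (𝓞 k) (𝓞 M)) := Ideal.map_le_iff_le_comap.1 h1
    rw [show w.asIdeal.comap (algebraMap (𝓞 k) (𝓞 M)) = u.asIdeal from hw] at h2
    exact Ideal.dvd_iff_le.2 h2
  · intro h
    rw [Ideal.dvd_iff_le]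
    unfold H57.LI.md
    rw [Ideal.map_le_iff_le_comap]
    exact (Ideal.le_of_dvd h).trans (show w.asIdeal.comap (algebraMap (𝓞 k) (𝓞 M)) = u.asIdeal from hw).ge

end tower

section loc

variable {k : Type} [Field k] [NumberField k] {Ω : Type} [Field Ω] [Algebra k Ω] [IsAlgClosure k Ω]

omit [NumberField k] in
theorem clo (M : IntermediateField k Ω) : IsAlgClosure M Ω where
  isAlgClosed := IsAlgClosure.isAlgClosed k
  isAlgebraic := by
    have : Algebra.IsAlgebraic k Ω := IsAlgClosure.isAlgebraic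
    exact Algebra.IsAlgebraic.tower_top (K := k) M

/-- the Frobenius elements over `k` and over an extension -/
theorem frob_pow (χ : Gal(Ω/k) →* Multiplicative (ZMod 3)) (u : Pl k)
    (h : ∀ P : Ideal (𝓞 Ω), P.IsPrime → P.under (𝓞 k) = u.asIdeal →
      ∀ σ ∈ P.inertia Gal(Ω/k), χ σ = 1)
    (P P' : Ideal (𝓞 Ω)) (hP : P.IsPrime) (hPu : P.under (𝓞 k) = u.asIdeal) (hP' : P'.IsPrime)
    (hl : P'.under (𝓞 k) = u.asIdeal) (φ₀ F : Gal(Ω/k)) (f : ℕ)
    (hφ₀ : ∀ x : 𝓞 Ω, φ₀ • x - x ^ nm u ∈ P)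
    (hF : ∀ x : 𝓞 Ω, F • x - x ^ (nm u ^ f) ∈ P') : χ F = χ φ₀ ^ f := by
  obtain ⟨g, hg⟩ := H57.SL.dic_tr (K := k) P P' hP hP' (hPu.trans hl.symm)
  obtain ⟨φ, hφ⟩ : ∃ φ : Gal(Ω/k), φ = g * φ₀ * g⁻¹ := ⟨_, rfl⟩
  have h1 : ∀ x : 𝓞 Ω, φ • x - x ^ nm u ∈ P' := by
    intro x
    rw [hg, Ideal.mem_pointwise_smul_iff_inv_smul_mem, smul_sub, smul_pow', hφ, mul_smul, mul_smul,
      inv_smul_smul]
    exact hφ₀ (g⁻¹ • x)
  have h2 : ∀ (n : ℕ) (x : 𝓞 Ω), φ ^ n • x - x ^ (nm u ^ n) ∈ P' := by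
    intro n
    induction n with
    | zero =>
      intro x
      rw [pow_zero, one_smul, pow_zero, pow_one, sub_self]
      exact P'.zero_mem
    | succ n ih =>
      intro x
      have h3 := ih (φ • x)
      have h4 : (φ • x) ^ (nm u ^ n) - (x ^ nm u) ^ (nm u ^ n) ∈ P' :=
        P'.mem_of_dvd (sub_dvd_pow_sub_pow _ _ _) (h1 x)
      have h5 := P'.add_mem h3 h4
      rw [sub_add_sub_cancel, ← mul_smul, ← pow_succ, ← pow_mul, ← pow_succ'] at h5
      exact h5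
  have h3 : F * (φ ^ f)⁻¹ ∈ P'.inertia Gal(Ω/k) := by
    intro x
    have h4 := P'.sub_mem (hF ((φ ^ f)⁻¹ • x)) (h2 f ((φ ^ f)⁻¹ • x))
    rw [smul_inv_smul, sub_sub_sub_cancel_right, ← mul_smul] at h4
    exact h4
  have h4 := h P' hP' hl _ h3
  rw [map_mul, map_inv, mul_inv_eq_one, map_pow] at h4
  rw [h4, hφ, map_mul, map_mul, map_inv, mul_right_comm, mul_inv_cancel, one_mul]

/-- the restriction to `Gal(Ω/M)` -/
def rsG (M : IntermediateField k Ω) (χ : Gal(Ω/k) →* Multiplicative (ZMod 3)) :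
    Gal(Ω/M) →* Multiplicative (ZMod 3) :=
  ⟨⟨fun σ => χ (σ.restrictScalars k), by
    have h1 : (1 : Gal(Ω/M)).restrictScalars k = 1 := rfl
    rw [h1, map_one]⟩, fun σ τ => by
    have h1 : (σ * τ).restrictScalars k = σ.restrictScalars k * τ.restrictScalars k := rfl
    show χ ((σ * τ).restrictScalars k) = _
    rw [h1, map_mul]⟩

omit [NumberField k] [IsAlgClosure k Ω] in
theorem rsG_ft (M : IntermediateField k Ω) [FiniteDimensional k M]
    (χ : Gal(Ω/k) →* Multiplicative (ZMod 3)) (hχ : FT χ) : FT (rsG M χ) := by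
  obtain ⟨E, hE1, hE2⟩ := hχ
  have hle : M ≤ M ⊔ E := le_sup_left
  have hfs : FiniteDimensional k (M ⊔ E : IntermediateField k Ω) :=
    IntermediateField.finiteDimensional_sup M E
  refine ⟨IntermediateField.extendScalars hle, ?_, ?_⟩
  · have h1 : FiniteDimensional k (IntermediateField.extendScalars hle) := hfs
    exact FiniteDimensional.right k M _
  · intro σ hσ
    rw [MonoidHom.mem_ker]
    show χ (σ.restrictScalars k) = 1
    have h1 : (σ.restrictScalars k : Gal(Ω/k)) ∈ E.fixingSubgroup := by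
      rw [IntermediateField.mem_fixingSubgroup_iff]
      intro x hx
      exact (IntermediateField.mem_fixingSubgroup_iff _ _).1 hσ x
        ((le_sup_right : E ≤ M ⊔ E) hx)
    exact hE2 h1

theorem ku_ex (M : IntermediateField k Ω) [NumberField M] [FiniteDimensional k M] {ω : M}
    (hω : IsPrimitiveRoot ω 3) (χ : Gal(Ω/k) →* Multiplicative (ZMod 3)) (hχ : FT χ) :
    ∃ δ : Mˣ, ∀ σ : Gal(Ω/M), kk 3 ω δ σ = Multiplicative.toAdd (χ (σ.restrictScalars k)) := by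
  have hcl := clo M
  obtain ⟨δ, hδ⟩ := kc_all (Ω := Ω) Nat.prime_three hω (rsG M χ) (rsG_ft M χ hχ)
  refine ⟨δ, fun σ => ?_⟩
  unfold kk
  rw [← hδ]
  rfl

theorem ku_ord (M : IntermediateField k Ω) [NumberField M] {ω : M} (hω : IsPrimitiveRoot ω 3)
    (χ : Gal(Ω/k) →* Multiplicative (ZMod 3)) (δ : Mˣ)
    (hδ : ∀ σ : Gal(Ω/M), kk 3 ω δ σ = Multiplicative.toAdd (χ (σ.restrictScalars k)))
    (u : Pl k) (h : ∀ P : Ideal (𝓞 Ω), P.IsPrime → P.under (𝓞 k) = u.asIdeal →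
      ∀ σ ∈ P.inertia Gal(Ω/k), χ σ = 1) (w : Pl M) (hw : Over w u)
    (hw3 : ¬ Above 3 w) : ((ord w δ : ℤ) : ZMod 3) = 0 := by
  have hcl := clo M
  obtain ⟨π, hπ⟩ := exists_unif w
  obtain ⟨L⟩ := exists_LD Ω Nat.prime_three hω hw3 hπ
  have hund : L.P.under (𝓞 k) = u.asIdeal := by
    rw [← (show w.asIdeal.comap (algebraMap (𝓞 k) (𝓞 M)) = u.asIdeal from hw), ← L.under]
    ext x
    exact Iff.rfl
  have h1 := h L.P L.prime hund (L.t.restrictScalars k) (fun x => L.ht x)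
  rw [← ld_kk_t Nat.prime_three hω hw3 hπ L δ, hδ, h1]
  rfl

theorem ku_val (M : IntermediateField k Ω) [NumberField M] {ω : M} (hω : IsPrimitiveRoot ω 3)
    (χ : Gal(Ω/k) →* Multiplicative (ZMod 3)) (δ : Mˣ)
    (hδ : ∀ σ : Gal(Ω/M), kk 3 ω δ σ = Multiplicative.toAdd (χ (σ.restrictScalars k)))
    (u : Pl k) (h : ∀ P : Ideal (𝓞 Ω), P.IsPrime → P.under (𝓞 k) = u.asIdeal →
      ∀ σ ∈ P.inertia Gal(Ω/k), χ σ = 1) (P : Ideal (𝓞 Ω)) (hP : P.IsPrime)
    (hPu : P.under (𝓞 k) = u.asIdeal) (φ : Gal(Ω/k)) (hφ : ∀ x : 𝓞 Ω, φ • x - x ^ nm u ∈ P)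
    (w : Pl M) (hw : Over w u)
    (hw3 : ¬ Above 3 w) (f : ℕ) (hf : nm w = nm u ^ f) (π : Mˣ) (hπ : ord w π = 1) :
    H63.MA.B 3 ω w δ π = f * Multiplicative.toAdd (χ φ) := by
  have hcl := clo M
  have ho := ku_ord M hω χ δ hδ u h w hw hw3
  obtain ⟨P', hP', hPw⟩ := gloc_over M Ω w.asIdeal w.isPrime
  obtain ⟨F, hF⟩ := gfrob_ex P' hP' hPw
  have hund : P'.under (𝓞 k) = u.asIdeal := by
    rw [← (show w.asIdeal.comap (algebraMap (𝓞 k) (𝓞 M)) = u.asIdeal from hw), ← hPw]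
    ext x
    exact Iff.rfl
  have h1 : χ (F.restrictScalars k) = χ φ ^ f := by
    refine frob_pow χ u h P P' hP hPu hP' hund φ (F.restrictScalars k) f hφ fun x => ?_
    rw [← hf]
    exact hF x
  have hB : H63.MA.B 3 ω w δ π = lg 3 ω w (δ ^ ord w π * (π ^ ord w δ)⁻¹) := rfl
  have hu : ord w (δ ^ ord w π * (π ^ ord w δ)⁻¹) = 0 := by
    rw [ord_mul, ord_inv, ord_zpow, ord_zpow]
    ring
  rw [hB, ← gfrob_unit Nat.prime_three hω hw3 P' hP' hPw F hF _ hu, kk_mul_arg Nat.prime_three hω,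
    ← zpow_neg, kk_zpow_arg Nat.prime_three hω, kk_zpow_arg Nat.prime_three hω, hδ, hπ, h1]
  push_cast
  rw [ho, toAdd_pow, nsmul_eq_mul]
  ring

end loc

end H77.SQ
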