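import Pool.Agent.H77.SQ.Crg

/-!
# H77 SQ CRH: `crg`, the cubic ray class character over any number field (SQ, chapter LSb; MP_b39724_nt). Text in `Crg.lean`.
-/

set_option autoImplicit false

open scoped NumberField Pointwise Classical
open IsDedekindDomain H63.MA H38.ML

noncomputable section

namespace H77.SQ

variable {k : Type} [Field k] [NumberField k] {Ω : Type} [Field Ω] [Algebra k Ω] [IsAlgClosure k Ω]

variable (k Ω) in
/-- `k(ω)` -/
theorem om_ex : ∃ (M : IntermediateField k Ω) (_ : NumberField M) (_ : FiniteDimensional k M) (ω : M),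
    IsPrimitiveRoot ω 3 ∧ (Module.finrank k M = 1 ∨ Module.finrank k M = 2) ∧
      ∀ σ : Gal(Ω/k), σ * σ ∈ M.fixingSubgroup := by
  have hac : IsAlgClosed Ω := IsAlgClosure.isAlgClosed k
  have halg : Algebra.IsAlgebraic k Ω := IsAlgClosure.isAlgebraic
  have hch : CharZero Ω := charZero_of_injective_algebraMap (algebraMap k Ω).injective
  obtain ⟨ω₀, hω₀⟩ := HasEnoughRootsOfUnity.exists_primitiveRoot Ω 3
  have hint : IsIntegral k ω₀ := (Algebra.IsAlgebraic.isAlgebraic ω₀).isIntegral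
  obtain ⟨M, hM⟩ : ∃ M, M = IntermediateField.adjoin k {ω₀} := ⟨_, rfl⟩
  have hfd : FiniteDimensional k M := by
    rw [hM]
    exact IntermediateField.adjoin.finiteDimensional hint
  have hnf : NumberField M := NumberField.of_module_finite k M
  have hmem : ω₀ ∈ M := by
    rw [hM]
    exact IntermediateField.mem_adjoin_simple_self k ω₀
  have h2 : ω₀ ^ 2 + ω₀ + 1 = 0 := by
    have h3 : (ω₀ - 1) * (ω₀ ^ 2 + ω₀ + 1) = 0 := by
      have h4 : (ω₀ - 1) * (ω₀ ^ 2 + ω₀ + 1) = ω₀ ^ 3 - 1 := by ring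
      rw [h4, hω₀.pow_eq_one, sub_self]
    rcases mul_eq_zero.1 h3 with h4 | h4
    · exact absurd (sub_eq_zero.1 h4) (hω₀.ne_one (by norm_num))
    · exact h4
  have hpr : IsPrimitiveRoot (⟨ω₀, hmem⟩ : M) 3 := by
    refine IsPrimitiveRoot.of_map_of_injective (f := algebraMap M Ω) ?_ (algebraMap M Ω).injective
    exact hω₀
  refine ⟨M, hnf, hfd, ⟨ω₀, hmem⟩, hpr, ?_, ?_⟩
  · have h1 : Module.finrank k M = (minpoly k ω₀).natDegree := by
      rw [hM]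
      exact IntermediateField.adjoin.finrank hint
    obtain ⟨f, hf⟩ : ∃ f : Polynomial k, f = Polynomial.X ^ 2 + Polynomial.X + 1 := ⟨_, rfl⟩
    have hf0 : f.natDegree = 2 := by
      rw [hf]
      compute_degree!
    have hfm : f ≠ 0 := by
      intro h
      rw [h, Polynomial.natDegree_zero] at hf0
      omega
    have h3 : minpoly k ω₀ ∣ f := by
      refine minpoly.dvd k _ ?_
      rw [hf]
      simp only [map_add, map_pow, Polynomial.aeval_X, map_one]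
      exact h2
    have h4 : (minpoly k ω₀).natDegree ≤ 2 := by
      rw [← hf0]
      exact Polynomial.natDegree_le_of_dvd h3 hfm
    have h5 : 0 < Module.finrank k M := by
      rw [h1]
      exact minpoly.natDegree_pos hint
    rw [← h1] at h4
    omega
  · intro σ
    have h3 : σ ω₀ = ω₀ ∨ σ ω₀ = ω₀ ^ 2 := by
      have h4 : (σ ω₀) ^ 2 + σ ω₀ + 1 = 0 := by
        have h5 := congrArg σ h2
        rw [map_add, map_add, map_pow, map_one, map_zero] at h5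
        exact h5
      have h5 : (σ ω₀ - ω₀) * (σ ω₀ - ω₀ ^ 2) = 0 := by
        linear_combination h4 + (-(σ ω₀) + ω₀ - 1) * h2
      rcases mul_eq_zero.1 h5 with h6 | h6
      · exact Or.inl (sub_eq_zero.1 h6)
      · exact Or.inr (sub_eq_zero.1 h6)
    have h4 : (σ * σ) ω₀ = ω₀ := by
      rw [AlgEquiv.mul_apply]
      rcases h3 with h3 | h3
      · rw [h3, h3]
      · rw [h3, map_pow, h3, ← pow_mul]
        have h5 : ω₀ ^ (2 * 2) = ω₀ ^ 3 * ω₀ := by ring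
        rw [h5, hω₀.pow_eq_one, one_mul]
    have h5 : Subgroup.zpowers (σ * σ) ≤ M.fixingSubgroup := by
      rw [← IntermediateField.le_iff_le, hM, IntermediateField.adjoin_simple_le_iff]
      rintro ⟨τ, hτ⟩
      show τ ω₀ = ω₀
      obtain ⟨n, rfl⟩ := Subgroup.mem_zpowers_iff.1 hτ
      have h6 : MulAction.stabilizer Gal(Ω/k) ω₀ = MulAction.stabilizer Gal(Ω/k) ω₀ := rfl
      have h7 : (σ * σ) ∈ MulAction.stabilizer Gal(Ω/k) ω₀ := MulAction.mem_stabilizer_iff.2 h4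
      exact MulAction.mem_stabilizer_iff.1 (zpow_mem h7 n)
    exact h5 (Subgroup.mem_zpowers _)

theorem crg (χ : Gal(Ω/k) →* Multiplicative (ZMod 3)) (hχ : FT χ) (𝔪 : Ideal (𝓞 k)) (h0 : 𝔪 ≠ ⊥)
    (h27 : Ideal.span {(27 : 𝓞 k)} ∣ 𝔪)
    (hunr : ∀ u : Pl k, ¬ u.asIdeal ∣ 𝔪 → ∀ P : Ideal (𝓞 Ω), P.IsPrime →
      P.under (𝓞 k) = u.asIdeal → ∀ σ ∈ P.inertia Gal(Ω/k), χ σ = 1) :
    ∃ ψ : RC k 𝔪, (∀ u : Pl k, ¬ u.asIdeal ∣ 𝔪 → (nm u).Prime → ∀ P : Ideal (𝓞 Ω), P.IsPrime →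
      P.under (𝓞 k) = u.asIdeal → ∀ φ : Gal(Ω/k), (∀ x : 𝓞 Ω, φ • x - x ^ nm u ∈ P) →
        ψ.χ u.asIdeal = ep 3 (Multiplicative.toAdd (χ φ))) ∧
      ((∃ σ, χ σ ≠ 1) → ψ.Non) := by
  obtain ⟨M, hnf, hfd, ω, hω, hfin, hsq⟩ := om_ex k Ω
  obtain ⟨a, ha0, ha⟩ : ∃ a : ℕ, a ≠ 0 ∧ ((a * Module.finrank k M : ℕ) : ZMod 3) = 1 := by
    rcases hfin with h | h
    · exact ⟨1, one_ne_zero, by rw [h]; rfl⟩
    · exact ⟨2, two_ne_zero, by rw [h]; rfl⟩
  have hfin2 : Module.finrank k M ≤ 2 := by omega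
  have hcl := clo M
  obtain ⟨δ, hδ⟩ := ku_ex M hω χ hχ
  have hone : MOne 3 M := mone_odd Nat.prime_three (by norm_num) M
  obtain ⟨lam, hlam, hl1⟩ := H48.CR.exists_rec_deg M Nat.prime_three hone hω
  have h0M : H57.LI.md 𝔪 M ≠ ⊥ := md_ne 𝔪 h0
  have h3M : Ideal.span {((3 : ℕ) : 𝓞 M) ^ 3} ∣ H57.LI.md 𝔪 M := by
    obtain ⟨J, hJ⟩ := h27
    rw [hJ]
    have e : H57.LI.md (Ideal.span {(27 : 𝓞 k)} * J) M =
        Ideal.span {((3 : ℕ) : 𝓞 M) ^ 3} * H57.LI.md J M := by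
      unfold H57.LI.md
      rw [Ideal.map_mul, Ideal.map_span, Set.image_singleton, map_ofNat]
      congr 2
      norm_num
    rw [e]
    exact dvd_mul_right _ _
  have hab : ∀ u : Pl k, ¬ u.asIdeal ∣ 𝔪 → ¬ Above 3 u := by
    intro u hu h
    apply hu
    refine dvd_trans ?_ h27
    rw [Ideal.dvd_span_singleton]
    have h1 : (27 : 𝓞 k) = ((3 : ℕ) : 𝓞 k) ^ 3 := by norm_num
    rw [h1]
    exact Ideal.pow_mem_of_mem _ h 3 (by norm_num)
  have hb : ∀ w : Pl M, ¬ Above 3 w → ((ord w δ : ℤ) : ZMod 3) ≠ 0 →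
      w.asIdeal ∣ H57.LI.md 𝔪 M := by
    intro w hw3 hw
    obtain ⟨u, hu⟩ := exists_below (K := k) w
    rw [dvd_md 𝔪 w u hu]
    by_contra hnd
    exact hw (ku_ord M hω χ δ hδ u (hunr u hnd) w hu hw3)
  obtain ⟨ψ, hψ⟩ := H51.CUB.chi_ex Nat.prime_three hω hlam δ _ h0M h3M hb
  have hval : ∀ u : Pl k, ¬ u.asIdeal ∣ 𝔪 → (nm u).Prime → ∀ P : Ideal (𝓞 Ω), P.IsPrime →
      P.under (𝓞 k) = u.asIdeal → ∀ φ : Gal(Ω/k), (∀ x : 𝓞 Ω, φ • x - x ^ nm u ∈ P) →
        (dnp a ha0 ψ).χ u.asIdeal = ep 3 (Multiplicative.toAdd (χ φ)) := by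
    intro u hu hp P hP hPu φ hφ
    have h5 := H48.CR.rc_pow (M := M) ψ.χ u (Multiplicative.toAdd (χ φ)) (by
      intro w hw
      obtain ⟨f, hf1, hf⟩ := nm_over hw
      refine ⟨f, hf, ?_⟩
      have hf2 := H48.CR.pw_deg u w hw hf
      have hw3 : ¬ Above 3 w := fun h => hab u hu (above_up w u hw h)
      have hnd : ¬ w.asIdeal ∣ H57.LI.md 𝔪 M := fun hd => hu ((dvd_md 𝔪 w u hw).1 hd)
      have hlw : lam w = 1 := hl1 w hw3 (nm u) f hp hf (by
        intro hd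
        have := Nat.le_of_dvd (by omega) hd
        omega)
      obtain ⟨π, hπ⟩ := exists_unif w
      rw [hψ.val w hnd π hπ, hlw, one_mul,
        ku_val M hω χ δ hδ u (hunr u hu) P hP hPu φ hφ w hw hw3 f hf π hπ])
    have h6 : (dnp a ha0 ψ).χ u.asIdeal = ep 3 (Module.finrank k M * Multiplicative.toAdd (χ φ)) ^ a := by
      rw [dnp_apply]
      exact congrArg (· ^ a) h5
    rw [h6]
    have h7 : ∀ (n : ℕ) (x : ZMod 3), ep 3 x ^ n = ep 3 (n * x) := by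
      intro n x
      induction n with
      | zero => rw [pow_zero, Nat.cast_zero, zero_mul, ep_zero]
      | succ n ih =>
        rw [pow_succ, ih, ← ep_add Nat.prime_three]
        congr 1
        push_cast
        ring
    rw [h7]
    congr 1
    rw [← mul_assoc]
    push_cast at ha
    rw [ha, one_mul]
  refine ⟨dnp a ha0 ψ, hval, ?_⟩
  rintro ⟨σ, hσ⟩
  have hpow : ¬ IsPow 3 δ := by
    intro hp
    apply hσ
    obtain ⟨σ', hσ'⟩ : ∃ σ' : Gal(Ω/M), (σ'.restrictScalars k : Gal(Ω/k)) = σ * σ :=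
      ⟨{ (σ * σ : Gal(Ω/k)) with
          commutes' := fun x => (IntermediateField.mem_fixingSubgroup_iff M _).1 (hsq σ) x.1 x.2 },
        by ext x; rfl⟩
    have h4 := hδ σ'
    rw [(kk_eq_zero_iff (Ω := Ω) Nat.prime_three hω δ).2 hp σ', hσ', map_mul] at h4
    have h5 : ∀ y : Multiplicative (ZMod 3), 0 = Multiplicative.toAdd (y * y) → y = 1 := by decide
    exact h5 _ h4
  obtain ⟨w, hwE, hw3, hwp, ho0, hlg⟩ := H1.AR.knn Nat.prime_three hone hω hpow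
    (Ideal.finite_factors h0M).toFinset
  have hnd : ¬ w.asIdeal ∣ H57.LI.md 𝔪 M := fun hd => hwE ((Set.Finite.mem_toFinset _).2 hd)
  obtain ⟨u, hu⟩ := exists_below (K := k) w
  have huB : ¬ u.asIdeal ∣ 𝔪 := fun h => hnd ((dvd_md 𝔪 w u hu).2 h)
  obtain ⟨f, hf1, hf⟩ := nm_over hu
  have hf1' : f = 1 := by
    rw [hf] at hwp
    exact hwp.eq_one_of_pow
  have hlp : (nm u).Prime := by
    rw [hf, hf1', pow_one] at hwp
    exact hwp
  obtain ⟨P, hP, hPu⟩ := gloc_over k Ω u.asIdeal u.isPrime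
  obtain ⟨φ, hφ⟩ := gfrob_ex P hP hPu
  refine ⟨u.asIdeal, u.ne_bot, ?_, ?_⟩
  · rw [Ideal.isCoprime_iff_sup_eq]
    by_contra hne
    have h1 : u.asIdeal = u.asIdeal ⊔ 𝔪 := u.isMaximal.eq_of_le hne le_sup_left
    exact huB (Ideal.dvd_iff_le.2 (by rw [h1]; exact le_sup_right))
  · rw [hval u huB hlp P hP hPu φ hφ, Ne, ep_eq_one Nat.prime_three]
    intro h4
    apply hlg
    obtain ⟨π, hπ⟩ := exists_unif w
    have h5 := ku_val M hω χ δ hδ u (hunr u huB) P hP hPu φ hφ w hu hw3 f hf π hπ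
    rw [h4, mul_zero] at h5
    have h6 : H63.MA.B 3 ω w δ π = lg 3 ω w δ := by
      unfold H63.MA.B
      rw [hπ, ho0, zpow_zero, inv_one, mul_one, zpow_one]
    rw [← h6]
    exact h5

end H77.SQ
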